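import Pool.Agent.Y6.M.Defs

/-! Statements of the steps (Euler equations with an additional skew-adjoint Fourier multiplier). -/

open Set Filter Topology
open scoped ComplexConjugate

set_option autoImplicit false

namespace Pool.Agent.Y6.M

/-! ### Abstract systems -/

/-- Averaging in a finite group of modes rotated with the speeds `± S`. -/
def S_AVG : Prop := ∀ (b : ℝ) (n : ℕ), 0 ≤ b → ∃ C : ℝ, 1 ≤ C ∧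
  ∀ (ι : Type) [Fintype ι] (τ : ι → ℝ) (S θ h η : ℝ) (v H H' E : ι → ℝ → ℂ),
    Fintype.card ι ≤ n → (∀ j, τ j ^ 2 = 1) → 1 ≤ S → 0 ≤ θ → θ ≤ 60 → 0 ≤ h → 0 ≤ η →
    (∀ j, ∀ t ∈ Icc 0 θ, HasDerivWithinAt (v j)
      (Complex.I * ((S * τ j : ℝ) : ℂ) * v j t + H j t + E j t) (Icc 0 θ) t) →
    (∀ j, ∀ t ∈ Icc 0 θ, HasDerivWithinAt (H j) (H' j t) (Icc 0 θ) t) →
    (∀ j, ∀ t ∈ Icc 0 θ, ‖H j t‖ ≤ h ∧ ‖H' j t‖ ≤ h) →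
    (∀ j, ∀ t ∈ Icc 0 θ, ‖E j t‖ ≤ b * ∑ i, ‖v i t‖ + η) → (∀ j, v j 0 = 0) →
    ∀ j, ∀ t ∈ Icc 0 θ, ‖v j t‖ ≤ C * (h / S + η)

/-- Existence for the truncated systems. -/
def S_GAL : Prop := ∀ (I : Type) (lv : I → ℕ) (bar : I → I) (σ : I → ℝ) (c : I → I → I → ℂ)
  (S : ℕ → ℝ) (v : I → ℂ), Ker lv bar σ c → Dat bar σ v → ∀ N, ∃ z, TSol S lv bar σ c v N z

/-- Decomposition of the quadratic term. -/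
def S_DEC : Prop := ∀ (I : Type) (lv : I → ℕ) (bar : I → I) (σ : I → ℝ) (c : I → I → I → ℂ),
  Ker lv bar σ c → ∃ R : ℕ → ℝ, (∀ m, 1 ≤ R m) ∧
    (∀ z, Adm σ z → ∀ i, Summable (fun p : I × I => ‖c i p.1 p.2 * z p.1 * z p.2‖) ∧
      ‖qd c z i‖ ≤ R (lv i)) ∧
    (∀ w P, σ w ≠ 0 → ∃ Q : Finset (I × I),
      (∀ p ∈ Q, ∀ j, (j = p.1 ∨ j = p.2) → σ j ≠ 0 → lv j < P) ∧
      ∀ z, Adm σ z → ‖qd c z w - ∑ p ∈ Q, c w p.1 p.2 * z p.1 * z p.2‖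
        ≤ R (lv w) * tail lv σ P z) ∧
    ∀ i z, σ i = 0 → Adm σ z → ‖qd c z i - mq σ c z i‖ ≤ R (lv i) * tail lv σ (lv i - 1) z

/-- The other modes are as small as we like if the speeds are chosen recursively. -/
def S_BOOT : Prop := ∀ (I : Type) (lv : I → ℕ) (bar : I → I) (σ : I → ℝ) (c : I → I → I → ℂ)
  (β : ℕ → ℝ), Ker lv bar σ c → (∀ m, 0 < β m) →
  ∃ S : ℕ → ℝ, (∀ m, 1 ≤ S m) ∧ ∀ v, Dat bar σ v → ∀ N z, TSol S lv bar σ c v N z →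
    ∀ j, σ j ≠ 0 → ∀ t ∈ Icc (0 : ℝ) 60, ‖z j t‖ ≤ β (lv j)

/-- Limits of the solutions of the truncated systems. -/
def S_LIM : Prop := ∀ (I : Type) (lv : I → ℕ) (bar : I → I) (σ : I → ℝ) (c : I → I → I → ℂ)
  (β S : ℕ → ℝ) (v : I → ℂ), Ker lv bar σ c → Dat bar σ v → (∀ m, 0 < β m) →
  Summable (fun j => if σ j = 0 then 0 else β (lv j)) →
  ∀ Z : ℕ → I → ℝ → ℂ, (∀ N, TSol S lv bar σ c v N (Z N)) →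
  (∀ N j, σ j ≠ 0 → ∀ t ∈ Icc (0 : ℝ) 60, ‖Z N j t‖ ≤ β (lv j)) →
  ∀ U : Ultrafilter ℕ, (U : Filter ℕ) ≤ atTop → ∃ z, LSol S lv bar σ c β v z ∧
    ∀ i, ∀ t ∈ Icc (0 : ℝ) 60, Tendsto (fun N => Z N i t) U (𝓝 (z i t))

/-- Choice of the bounds of the other modes. -/
def S_SEQB : Prop := ∀ (I : Type) (lv : I → ℕ) (σ : I → ℝ), (∀ m, {i | lv i ≤ m}.Finite) →
  ∀ g : ℕ → ℝ, (∀ n, 0 < g n) → ∃ β : ℕ → ℝ, (∀ m, 0 < β m) ∧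
    (∀ m : ℕ, β m ≤ Real.exp (-(m : ℝ) ^ 2)) ∧
    Summable (fun j => if σ j = 0 then 0 else β (lv j)) ∧
    ∀ n, ∑' j, (if σ j ≠ 0 ∧ n - 1 ≤ lv j then β (lv j) else 0) ≤ g n

/-- Energy conservation and uniqueness for regular solutions. -/
def S_UNI : Prop := ∀ (I : Type) (lv : I → ℕ) (bar : I → I) (σ : I → ℝ) (c : I → I → I → ℂ)
  (S α : ℕ → ℝ) (N : I → ℝ) (T : ℝ), Ker lv bar σ c → Wt lv σ α c N →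
    (∀ z, KSol S lv bar σ c N T z → ∀ t ∈ Ico 0 T, Summable (fun a => ‖z a t‖ ^ 2) ∧
      ∑' a, ‖z a t‖ ^ 2 = ∑' a, ‖z a 0‖ ^ 2) ∧
    ∀ z z', KSol S lv bar σ c N T z → KSol S lv bar σ c N T z' → (∀ i, z i 0 = z' i 0) →
      ∀ i, ∀ t ∈ Ico 0 T, z i t = z' i t

/-! ### The chain -/

/-- a differential inequality -/
def S_ARS : Prop := ∀ (s e r q F : ℝ) (H H' : ℝ → ℝ), s ≤ e → 0 < r → 0 < q → 0 < F →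
  (∀ t ∈ Icc s e, HasDerivWithinAt H (H' t) (Icc s e) t) →
  (∀ t ∈ Icc s e, r * √(H t ^ 2 + q ^ 2) ≤ H' t) → (∀ t ∈ Icc s e, |H t| ≤ F) →
  r * (e - s) ≤ 2 * Real.log (2 * F / q + 1)

/-- lower bound of the invariant of the pair `x (n + 1)`, `y n` -/
def S_QINV : Prop := ∀ (α : ℕ → ℝ) (G : ℕ → ℂ) (b d : ℕ → ℝ), Chn α G b d →
  ∀ (n : ℕ) (θ : ℝ) (x y f g : ℕ → ℝ → ℂ), 0 ≤ θ → θ ≤ 60 →
  CSol α G b d (n + 1) 0 θ x y f g → x (n + 1) 0 = (x0 α (n + 1) : ℝ) → y n 0 = 0 →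
  (∀ t ∈ Icc 0 θ, ‖x (n + 1) t‖ ≤ Uth α (n + 1) ∧ ‖y n t‖ ≤ Uth α (n + 1)) →
  (∀ t ∈ Icc 0 θ, ‖x (n + 2) t‖ ≤ Uth α (n + 2) ∧ ‖y (n + 1) t‖ ≤ Uth α (n + 2)) →
  ∀ t ∈ Icc 0 θ, d n * εc α (n + 1) ^ 2 / 2 ≤ d n * ‖x (n + 1) t‖ ^ 2 - b n * ‖y n t‖ ^ 2

/-- the length of a step of the cascade -/
noncomputable def δc (α : ℕ → ℝ) (n : ℕ) : ℝ := (√(√(α n)))⁻¹

/-- the mode `x m` is almost constant during a step of the cascade -/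
def S_FRZ : Prop := ∀ (α : ℕ → ℝ) (G : ℕ → ℂ) (b d : ℕ → ℝ), Chn α G b d →
  ∀ (m : ℕ) (s e : ℝ) (x y f g : ℕ → ℝ → ℂ), s ≤ e → e ≤ s + 2 * δc α m →
  CSol α G b d m s e x y f g → Uth α m ≤ ‖x m s‖ → (∀ n, m = n + 1 → ‖y n s‖ ≤ ‖x m s‖) →
  (∀ t ∈ Icc s e, ‖x (m + 1) t‖ ≤ Uth α (m + 1) ∧ ‖y m t‖ ≤ Uth α (m + 1)) →
  ∀ t ∈ Icc s e, ‖x m t - x m s‖ ≤ ‖x m s‖ / 10

/-- growth of the pair `x (n + 1)`, `y n`, driven by `x n` -/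
def S_GRW : Prop := ∀ (α : ℕ → ℝ) (G : ℕ → ℂ) (b d : ℕ → ℝ), Chn α G b d →
  ∀ (n : ℕ) (s e : ℝ) (p : ℂ) (x y f g : ℕ → ℝ → ℂ), s ≤ e →
  CSol α G b d (n + 1) s e x y f g → Uth α n ≤ ‖p‖ →
  (∀ t ∈ Icc s e, ‖x n t - p‖ ≤ ‖p‖ / 10) →
  (∀ t ∈ Icc s e, ‖x (n + 1) t‖ ≤ Uth α (n + 1) ∧ ‖y n t‖ ≤ Uth α (n + 1)) →
  (∀ t ∈ Icc s e, ‖x (n + 2) t‖ ≤ Uth α (n + 2) ∧ ‖y (n + 1) t‖ ≤ Uth α (n + 2)) →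
  (∀ t ∈ Icc s e, d n * εc α (n + 1) ^ 2 / 2 ≤ d n * ‖x (n + 1) t‖ ^ 2 - b n * ‖y n t‖ ^ 2) →
  e ≤ s + δc α n

/-- a step of the cascade: if the level `m` exceeds its threshold for the first time at the
time `s` and the higher levels never do this on `[0, θ]`, then `θ ≤ s + δ` -/
def S_STEP : Prop := ∀ (α : ℕ → ℝ) (G : ℕ → ℂ) (b d : ℕ → ℝ), Chn α G b d →
  ∀ (m : ℕ) (s θ : ℝ) (x y f g : ℕ → ℝ → ℂ), 0 ≤ s → s ≤ θ → θ ≤ 60 →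
  (∀ N, CSol α G b d N 0 θ x y f g) → (∀ n, x n 0 = (x0 α n : ℝ)) → (∀ n, y n 0 = 0) →
  (∀ n, m < n → ∀ t ∈ Icc 0 θ, ‖x n t‖ < Uth α n) →
  (∀ n, m ≤ n → ∀ t ∈ Icc 0 θ, ‖y n t‖ < Uth α (n + 1)) →
  ((m = 0 ∧ s = 0) ∨ ∃ n, m = n + 1 ∧ (Uth α m ≤ ‖x m s‖ ∨ Uth α m ≤ ‖y n s‖) ∧
    ∀ t ∈ Ico 0 s, ‖x m t‖ < Uth α m ∧ ‖y n t‖ < Uth α m) →
  θ ≤ s + δc α m

/-- Regular solutions do not exist for a long time. -/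
def S_RIC : Prop := ∀ (α : ℕ → ℝ) (G : ℕ → ℂ) (b d : ℕ → ℝ), Chn α G b d →
  ∀ (θ : ℝ) (x y f g : ℕ → ℝ → ℂ), 0 ≤ θ → θ ≤ 60 →
  (∀ N, CSol α G b d N 0 θ x y f g) → (∀ n, x n 0 = (x0 α n : ℝ)) → (∀ n, y n 0 = 0) →
  (∃ M, ∀ n, ∀ t ∈ Icc 0 θ, α n * ‖x n t‖ ≤ M ∧ α (n + 1) * ‖y n t‖ ≤ M) → θ ≤ 30

/-- Persistence of the decay. -/
def S_PERS : Prop := ∀ (α : ℕ → ℝ) (G : ℕ → ℂ) (b d : ℕ → ℝ), Chn α G b d →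
  ∀ (k : ℕ) (M : ℝ), ∃ C : ℝ, ∀ (N : ℕ) (θ : ℝ) (x y f g : ℕ → ℝ → ℂ), 0 ≤ θ → θ ≤ 60 →
  CSol α G b d N 0 θ x y f g → (∀ n, ‖x n 0‖ ≤ x0 α n) → (∀ n, y n 0 = 0) →
  (∀ n, ∀ t ∈ Icc 0 θ, α n * ‖x n t‖ ≤ M ∧ α (n + 1) * ‖y n t‖ ≤ M) →
  (∀ n ≤ N, ∀ t ∈ Icc 0 θ, α n ^ k * ‖x n t‖ ≤ C) ∧
    ∀ n < N, ∀ t ∈ Icc 0 θ, α (n + 1) ^ k * ‖y n t‖ ≤ C

/-- Local bounds. -/
def S_LOC : Prop := ∀ (α : ℕ → ℝ) (G : ℕ → ℂ) (b d : ℕ → ℝ), Chn α G b d →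
  ∀ X : ℝ, ∃ δ M : ℝ, 0 < δ ∧ ∀ (N : ℕ) (s e : ℝ) (x y f g : ℕ → ℝ → ℂ), s ≤ e → e ≤ s + δ →
  CSol α G b d N s e x y f g → (∀ n, N < n → ∀ t ∈ Icc s e, x n t = 0) →
  (∀ n, N ≤ n → ∀ t ∈ Icc s e, y n t = 0) →
  (∀ n, α n ^ 3 * ‖x n s‖ ≤ X ∧ α (n + 1) ^ 3 * ‖y n s‖ ≤ X) →
  ∀ n, ∀ t ∈ Icc s e, α n * ‖x n t‖ ≤ M ∧ α (n + 1) * ‖y n t‖ ≤ M

/-- Blow-up for the full system of the modes. -/
def S_BLOWM : Prop := ∀ (I : Type) (lv : I → ℕ) (bar : I → I) (σ : I → ℝ) (c : I → I → I → ℂ)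
  (α : ℕ → ℝ) (G : ℕ → ℂ) (b d : ℕ → ℝ) (X Y : ℕ → I) (N : I → ℝ) (v : I → ℂ),
  Ker lv bar σ c → Chn α G b d → Mains lv bar σ c G b d X Y → Wt lv σ α c N → Dat bar σ v →
  MDat α X Y v →
  ∃ S : ℕ → ℝ, (∀ n, 1 ≤ S n) ∧ ∃ (T : ℝ) (z : I → ℝ → ℂ), 0 < T ∧ T ≤ 30 ∧
    KSol S lv bar σ c N T z ∧ (∀ i, z i 0 = v i) ∧
    (∀ (T' : ℝ) (z' : I → ℝ → ℂ), 0 < T' → KSol S lv bar σ c N T' z' → (∀ i, z' i 0 = v i) →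
      T' ≤ T ∧ ∀ i, ∀ t ∈ Ico 0 T', z' i t = z i t) ∧
    (∀ t ∈ Ico 0 T, Summable (fun a => ‖z a t‖ ^ 2) ∧
      ∑' a, ‖z a t‖ ^ 2 = ∑' a, ‖v a‖ ^ 2) ∧
    ∀ M : ℝ, ∃ t ∈ Ico 0 T, ∃ i, σ i = 0 ∧ M < α (lv i) * ‖z i t‖

/-! ### The concrete system -/

/-- helical vectors exist -/
def S_FRAME : Prop := ∃ h, Frame h

/-- vector identity -/
def S_VEC1 : Prop := ∀ h, Frame h → ∀ i a b : Md, a.1.1 + b.1.1 = i.1.1 →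
  cK h i a b + cK h i b a = 2 * Real.pi *
    ((hs b.2 * len b.1.1 - hs a.2 * len a.1.1 : ℝ) : ℂ) * dt (cr (h a) (h b)) (cj (h i))

/-- modulus of the coefficients -/
def S_VEC2 : Prop := ∀ h, Frame h → ∀ n,
  ‖GM h n‖ = 2 * Real.pi * (1 / (2 * √2)) * ((αM n + αM (n + 1)) / ρM n - 1)

/-- the coefficients of the chain -/
def S_CHN : Prop := S_VEC2 → ∀ h, Frame h → Chn αM (GM h) bM dM

/-- levels and signs -/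
def S_LV : Prop :=
  (∀ n, lvM (Xm n) = n ∧ lvM (br (Xm n)) = n ∧ lvM (Ym n) = n + 1 ∧ lvM (br (Ym n)) = n + 1) ∧
  (∀ n, σM (Xm n) = 0 ∧ σM (br (Xm n)) = 0 ∧ σM (Ym n) = 0 ∧ σM (br (Ym n)) = 0) ∧
  (∀ i, σM i = 0 → ∃ n, i = Xm n ∨ i = br (Xm n) ∨ i = Ym n ∨ i = br (Ym n)) ∧
  (∀ i, σM i ≠ 0 → (lvM i : ℤ) = nsq i.1.1 ∧ σM i ^ 2 = 1) ∧
  (∀ i, br (br i) = i ∧ lvM (br i) = lvM i ∧ σM (br i) = -σM i) ∧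
  (∀ m, {i | lvM i ≤ m}.Finite) ∧
  (∀ i, σM i = 0 → αM (lvM i) ^ 2 ≤ NM i ∧ NM i ≤ 2 * αM (lvM i) ^ 2) ∧
  Function.Injective Xm ∧ Function.Injective Ym ∧
  (∀ n m, kx n ≠ -kx m) ∧ ∀ n m, kx n + kx (n + 1) ≠ -(kx m + kx (m + 1))

/-- sums of frequencies of the chain -/
def S_SUMS : Prop :=
  (∀ n a b, σM a = 0 → σM b = 0 → a.1.1 + b.1.1 = kx n →
    (a = Ym n ∧ b = br (Xm (n + 1))) ∨ (b = Ym n ∧ a = br (Xm (n + 1))) ∨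
      ∃ m, n = m + 1 ∧ ((a = Ym m ∧ b = br (Xm m)) ∨ (b = Ym m ∧ a = br (Xm m)))) ∧
  (∀ n a b, σM a = 0 → σM b = 0 → a.1.1 + b.1.1 = kx n + kx (n + 1) →
    (a = Xm n ∧ b = Xm (n + 1)) ∨ (b = Xm n ∧ a = Xm (n + 1))) ∧
  (∀ k : Z3, k ≠ 0 → {p : Md × Md | σM p.1 = 0 ∧ σM p.2 = 0 ∧ p.1.1.1 + p.2.1.1 = k}.Finite) ∧
  ∀ i a : Md, σM i = 0 → σM a = 0 → i.1.1 ≠ a.1.1 → (lvM i : ℤ) ≤ nsq (i.1.1 - a.1.1) + 1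

/-- the kernel -/
def S_KERM : Prop := S_LV → S_SUMS → ∀ h, Frame h → Ker lvM br σM (cK h)

/-- the main modes -/
def S_TAB : Prop := S_LV → S_SUMS → S_VEC1 → ∀ h, Frame h →
  Mains lvM br σM (cK h) (GM h) bM dM Xm Ym

/-- the weights -/
def S_WTM : Prop := S_LV → ∀ h, Frame h → Wt lvM σM αM (cK h) NM

/-- the data -/
def S_DATM : Prop := S_LV → Dat br σM vM ∧ MDat αM Xm Ym vM

/-! ### Fourier coefficients -/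

/-- the amplitudes of a field -/
noncomputable def amp (h : Md → C3) (V : Coef) (i : Md) : ℂ := dt (V i.1.1) (cj (h i))

/-- the field with given amplitudes -/
noncomputable def fld (h : Md → C3) (z : Md → ℂ) : Coef := fun k j =>
  open Classical in
  if hk : k = 0 then 0 else z (⟨k, hk⟩, true) * h (⟨k, hk⟩, true) j +
    z (⟨k, hk⟩, false) * h (⟨k, hk⟩, false) j

/-- amplitudes and fields -/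
def S_PH1 : Prop := ∀ h, Frame h →
  (∀ z i, amp h (fld h z) i = z i) ∧
  (∀ V : Coef, V 0 = 0 → (∀ k, dt (kc k) (V k) = 0) → fld h (amp h V) = V) ∧
  (∀ V : Coef, (∀ k j, V (-k) j = conj (V k j)) → ∀ i, amp h V (br i) = conj (amp h V i)) ∧
  (∀ z : Md → ℂ, (∀ i, z (br i) = conj (z i)) → ∀ k j,
    fld h z (-k) j = conj (fld h z k j)) ∧
  (∀ z k, dt (kc k) (fld h z k) = 0) ∧
  (∀ (V : Coef) (k : {k : Z3 // k ≠ 0}), dt (kc k.1) (V k.1) = 0 →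
    ∑ j, ‖V k.1 j‖ ^ 2 = ‖amp h V (k, true)‖ ^ 2 + ‖amp h V (k, false)‖ ^ 2) ∧
  (∀ (m n : Z3 → ℝ) (V : Coef) (i : Md), dt (kc i.1.1) (V i.1.1) = 0 →
    dt (Kop m n V i.1.1) (cj (h i)) =
      Complex.I * ((m i.1.1 + hs i.2 * n i.1.1 : ℝ) : ℂ) * amp h V i) ∧
  (∀ w i, dt (leray i.1.1 w) (cj (h i)) = dt w (cj (h i))) ∧
  (∀ (m n : Z3 → ℝ) (V : Coef) (k : Z3), dt (kc k) (V k) = 0 →
    dt (kc k) (Kop m n V k) = 0) ∧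
  ∀ w (k : Z3), k ≠ 0 → dt (kc k) (leray k w) = 0

/-- the quadratic term -/
def S_PH2 : Prop := ∀ h, Frame h → ∀ V, IsField V → ∀ i,
  -dt (adv V i.1.1) (cj (h i)) = qd (cK h) (amp h V) i

/-- The main theorem. -/
def S_MAINM : Prop := ∃ (m n : Z3 → ℝ) (T : ℝ) (V : ℝ → Coef), (∀ k, m (-k) = -m k) ∧
  (∀ k, n (-k) = -n k) ∧ 0 < T ∧ T ≤ 30 ∧ IsSol m n T V ∧
  -- uniqueness, and `T` is the maximal time of existence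
  (∀ (T' : ℝ) (W : ℝ → Coef), 0 < T' → IsSol m n T' W → W 0 = V 0 →
    T' ≤ T ∧ ∀ t ∈ Ico 0 T', W t = V t) ∧
  -- energy conservation
  (∀ t ∈ Ico 0 T, energy (V t) = energy (V 0)) ∧
  -- blow-up of the enstrophy
  ∀ M : ℝ, ∃ t ∈ Ico 0 T, M < enstr (V t)

/-- The concrete system. -/
def S_CONCM : Prop := ∃ h, Frame h ∧ Ker lvM br σM (cK h) ∧ Chn αM (GM h) bM dM ∧
  Mains lvM br σM (cK h) (GM h) bM dM Xm Ym ∧ Wt lvM σM αM (cK h) NM ∧ Dat br σM vM ∧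
  MDat αM Xm Ym vM

/-- The passage to fields. -/
def S_PH3 : Prop := S_LV → S_PH1 → S_PH2 → S_BLOWM → S_CONCM → S_MAINM

end Pool.Agent.Y6.M
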