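import Pool.Agent.Y6.M.Stm

/-! Blow-up for the full system of the modes (assembly). -/

open Set Filter Topology
open scoped ComplexConjugate

set_option autoImplicit false

namespace Pool.Agent.Y6.M

section

variable {I : Type} {lv : I → ℕ} {bar : I → I} {σ : I → ℝ} {c : I → I → I → ℂ}
  {α : ℕ → ℝ} {G : ℕ → ℂ} {b d : ℕ → ℝ} {X Y : ℕ → I} {N : I → ℝ} {v : I → ℂ} {S β : ℕ → ℝ}

lemma al1 (hA : Chn α G b d) (n : ℕ) : 1 ≤ α n := by
  induction n with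
  | zero => exact le_trans (by norm_num) hA.A0
  | succ n ih => rw [hA.step]; exact one_le_pow₀ ih

lemma alpos (hA : Chn α G b d) (n : ℕ) : 0 < α n := lt_of_lt_of_le one_pos (al1 hA n)

lemma al_grow (hA : Chn α G b d) (n : ℕ) : (2 : ℝ) ^ n ≤ α n := by
  induction n with
  | zero => simpa using al1 hA 0
  | succ n ih =>
    have h1 := al1 hA n
    have h2 : (2 : ℝ) ≤ α n := by
      rcases n with _ | n
      · exact le_trans (by norm_num) hA.A0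
      · refine le_trans ?_ ih
        rw [pow_succ]
        have : (1 : ℝ) ≤ 2 ^ n := one_le_pow₀ (by norm_num)
        linarith
    rw [hA.step, pow_succ]
    calc (2 : ℝ) ^ n * 2 ≤ α n * α n := mul_le_mul ih h2 (by norm_num) (by linarith)
      _ = α n ^ 2 := by ring
      _ ≤ α n ^ (2 * n + 8) := pow_le_pow_right₀ h1 (by omega)

lemma φc_pos (hA : Chn α G b d) (n : ℕ) : 0 < φc α n := by
  unfold φc
  have := alpos hA n
  positivity

lemma εc_pos (hA : Chn α G b d) (n : ℕ) : 0 < εc α n := by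
  unfold εc
  have := alpos hA n
  positivity

lemma x0_pos (hA : Chn α G b d) (n : ℕ) : 0 < x0 α n := by
  cases n with
  | zero => norm_num [x0]
  | succ n => exact εc_pos hA _

lemma tail_le (hβ : ∀ m, 0 < β m) (hs : Summable (fun j => if σ j = 0 then 0 else β (lv j)))
    {z : I → ℂ} (hz : ∀ j, σ j ≠ 0 → ‖z j‖ ≤ β (lv j)) (P : ℕ) :
    tail lv σ P z ≤ ∑' j, (if σ j ≠ 0 ∧ P ≤ lv j then β (lv j) else 0) := by
  have h1 : Summable (fun j => if σ j ≠ 0 ∧ P ≤ lv j then β (lv j) else 0) := by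
    refine Summable.of_nonneg_of_le (fun j => ?_) (fun j => ?_) hs
    · split_ifs
      exacts [(hβ _).le, le_rfl]
    · by_cases h : σ j = 0
      · simp [h]
      · rw [if_neg h]
        split_ifs
        exacts [le_rfl, (hβ _).le]
  have h2 : ∀ j, (if σ j ≠ 0 ∧ P ≤ lv j then ‖z j‖ else 0) ≤
      if σ j ≠ 0 ∧ P ≤ lv j then β (lv j) else 0 := by
    intro j
    by_cases h : σ j ≠ 0 ∧ P ≤ lv j
    · rw [if_pos h, if_pos h]; exact hz j h.1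
    · rw [if_neg h, if_neg h]
  refine Summable.tsum_le_tsum h2 (Summable.of_nonneg_of_le (fun j => ?_) h2 h1) h1
  split_ifs
  exacts [norm_nonneg _, le_rfl]

lemma adm_of (hs : Summable (fun j => if σ j = 0 then 0 else β (lv j))) {z : I → ℂ}
    (h1 : Summable (fun a => ‖z a‖ ^ 2)) (h2 : ∑' a, ‖z a‖ ^ 2 ≤ 1)
    (hz : ∀ j, σ j ≠ 0 → ‖z j‖ ≤ β (lv j)) : Adm σ z := by
  refine ⟨h1, h2, Summable.of_nonneg_of_le (fun j => ?_) (fun j => ?_) hs⟩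
  · split_ifs
    exacts [le_rfl, norm_nonneg _]
  · by_cases h : σ j = 0
    · rw [if_pos h, if_pos h]
    · rw [if_neg h, if_neg h]; exact hz j h

lemma one_of {z : I → ℂ} (h1 : Summable (fun a => ‖z a‖ ^ 2)) (h2 : ∑' a, ‖z a‖ ^ 2 ≤ 1) (i : I) :
    ‖z i‖ ≤ 1 := by
  have h3 : ‖z i‖ ^ 2 ≤ 1 := (h1.le_tsum i fun _ _ => sq_nonneg _).trans h2
  nlinarith [norm_nonneg (z i)]

lemma TSol.summable (K : Ker lv bar σ c) {n : ℕ} {z : I → ℝ → ℂ}
    (h : TSol S lv bar σ c v n z) (t : ℝ) : Summable (fun a => ‖z a t‖ ^ 2) := by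
  refine summable_of_hasFiniteSupport ((K.fin n).subset fun i hi => ?_)
  by_contra hcon
  have hcon : ¬ lv i ≤ n := hcon
  rw [not_le] at hcon
  apply hi
  simp [h.zero i hcon t]

/-- the bounds of the coefficients on the other modes -/
lemma weight_exp (C : ℝ) (k : ℕ) : ∃ M, ∀ m : ℕ, (|C| + 1) ^ ((m + 1) * k) *
    Real.exp (-(m : ℝ) ^ 2) ≤ M := by
  set L := Real.log (|C| + 1) with hL
  have hC : (0 : ℝ) < |C| + 1 := by positivity
  refine ⟨Real.exp (k * L + (k * L) ^ 2), fun m => ?_⟩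
  have h1 : (|C| + 1) ^ ((m + 1) * k) = Real.exp (L * ((m + 1) * k : ℕ)) := by
    rw [hL, Real.exp_mul, Real.exp_log hC, Real.rpow_natCast]
  rw [h1, ← Real.exp_add]
  refine Real.exp_le_exp.2 ?_
  push_cast
  nlinarith [sq_nonneg ((m : ℝ) - k * L), sq_nonneg ((m : ℝ) + k * L)]

/-- the perturbation of the chain -/
noncomputable def pf (σ : I → ℝ) (c : I → I → I → ℂ) (X : ℕ → I) (z : I → ℝ → ℂ) (n : ℕ) (t : ℝ) :
    ℂ := qd c (fun a => z a t) (X n) - mq σ c (fun a => z a t) (X n)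

/-- the bound of the perturbation -/
def PB (lv : I → ℕ) (σ : I → ℝ) (c : I → I → I → ℂ) (α β : ℕ → ℝ) : Prop :=
  ∀ z : I → ℂ, Adm σ z → (∀ j, σ j ≠ 0 → ‖z j‖ ≤ β (lv j)) →
    ∀ i, σ i = 0 → ‖qd c z i - mq σ c z i‖ ≤ φc α (lv i)

lemma Kz_main {z : I → ℂ} {i : I} (h : σ i = 0) : Kz S lv σ z i = 0 := by
  unfold Kz; rw [h]; simp

lemma csol_of (K : Ker lv bar σ c) (Mn : Mains lv bar σ c G b d X Y)
    (hs : Summable (fun j => if σ j = 0 then 0 else β (lv j)))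
    (hp : PB lv σ c α β) {n : ℕ} {s e : ℝ} {z : I → ℝ → ℂ}
    (hr : ∀ i, ∀ t ∈ Icc s e, z (bar i) t = conj (z i t))
    (hd : ∀ i, lv i ≤ n → ∀ t ∈ Icc s e, HasDerivWithinAt (z i)
      (Kz S lv σ (fun a => z a t) i + qd c (fun a => z a t) i) (Icc s e) t)
    (he : ∀ t ∈ Icc s e, Summable (fun a => ‖z a t‖ ^ 2) ∧ ∑' a, ‖z a t‖ ^ 2 ≤ 1)
    (hb : ∀ j, σ j ≠ 0 → ∀ t ∈ Icc s e, ‖z j t‖ ≤ β (lv j)) :
    CSol α G b d n s e (fun m => z (X m)) (fun m => z (Y m)) (pf σ c X z) (pf σ c Y z) := by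
  refine ⟨fun m hm t ht => ?_, fun m hm t ht => ?_, fun m t ht => ?_, fun m t ht => ?_,
    fun m t ht => ?_⟩
  · refine (hd (X m) ((Mn.lX m).le.trans hm) t ht).congr_deriv ?_
    rw [Kz_main (Mn.sX m), ← Mn.tX (fun a => z a t) (fun i => hr i t ht) m]
    simp only [pf]
    ring
  · refine (hd (Y m) ((Mn.lY m).le.trans hm) t ht).congr_deriv ?_
    rw [Kz_main (Mn.sY m), ← Mn.tY (fun a => z a t) (fun i => hr i t ht) m]
    simp only [pf]
    ring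
  · have h1 := hp _ (adm_of hs (he t ht).1 (he t ht).2 fun j hj => hb j hj t ht)
      (fun j hj => hb j hj t ht) (X m) (Mn.sX m)
    rwa [Mn.lX] at h1
  · have h1 := hp _ (adm_of hs (he t ht).1 (he t ht).2 fun j hj => hb j hj t ht)
      (fun j hj => hb j hj t ht) (Y m) (Mn.sY m)
    rwa [Mn.lY] at h1
  · exact ⟨one_of (he t ht).1 (he t ht).2 _, one_of (he t ht).1 (he t ht).2 _⟩

lemma TSol.csol (K : Ker lv bar σ c) (Mn : Mains lv bar σ c G b d X Y)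
    (hs : Summable (fun j => if σ j = 0 then 0 else β (lv j)))
    (hp : PB lv σ c α β) {n : ℕ} {z : I → ℝ → ℂ} (h : TSol S lv bar σ c v n z)
    (hz : ∀ j, σ j ≠ 0 → ∀ t ∈ Icc (0 : ℝ) 60, ‖z j t‖ ≤ β (lv j)) {s e : ℝ} (ha : 0 ≤ s)
    (hb : e ≤ 60) :
    CSol α G b d n s e (fun m => z (X m)) (fun m => z (Y m)) (pf σ c X z) (pf σ c Y z) := by
  have hsub : Icc s e ⊆ Icc 0 60 := Icc_subset_Icc ha hb
  exact csol_of K Mn hs hp (fun i t ht => h.real i t (hsub ht))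
    (fun i hi t ht => (h.deriv i hi t (hsub ht)).mono hsub)
    (fun t ht => ⟨h.summable K t, h.energy t (hsub ht)⟩) (fun j hj t ht => hz j hj t (hsub ht))

lemma LSol.csol (K : Ker lv bar σ c) (Mn : Mains lv bar σ c G b d X Y)
    (hs : Summable (fun j => if σ j = 0 then 0 else β (lv j)))
    (hp : PB lv σ c α β) (n : ℕ) {z : I → ℝ → ℂ} (h : LSol S lv bar σ c β v z) {s e : ℝ}
    (ha : 0 ≤ s) (hb : e ≤ 60) :
    CSol α G b d n s e (fun m => z (X m)) (fun m => z (Y m)) (pf σ c X z) (pf σ c Y z) := by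
  have hsub : Icc s e ⊆ Icc 0 60 := Icc_subset_Icc ha hb
  exact csol_of K Mn hs hp (fun i t ht => h.real i t (hsub ht))
    (fun i _ t ht => (h.deriv i t (hsub ht)).mono hsub)
    (fun t ht => h.energy t (hsub ht)) (fun j hj t ht => h.bdd j hj t (hsub ht))

/-- bound of all main modes from the bounds of the chain -/
lemma main_le (K : Ker lv bar σ c) (Mn : Mains lv bar σ c G b d X Y) {z : I → ℂ}
    (hr : ∀ i, z (bar i) = conj (z i)) {f : ℕ → ℝ} {M : ℝ}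
    (h : ∀ n, f n * ‖z (X n)‖ ≤ M ∧ f (n + 1) * ‖z (Y n)‖ ≤ M) (i : I) (hi : σ i = 0) :
    f (lv i) * ‖z i‖ ≤ M := by
  have hn : ∀ i, ‖z (bar i)‖ = ‖z i‖ := fun i => by rw [hr, RCLike.norm_conj]
  obtain ⟨n, h1 | h1 | h1 | h1⟩ := Mn.all i hi
  · rw [h1, Mn.lX]; exact (h n).1
  · rw [h1, K.lbar, Mn.lX, hn]; exact (h n).1
  · rw [h1, Mn.lY]; exact (h n).2
  · rw [h1, K.lbar, Mn.lY, hn]; exact (h n).2

/-- good times -/
def Good (α : ℕ → ℝ) (X Y : ℕ → I) (U : Ultrafilter ℕ) (Z : ℕ → I → ℝ → ℂ) (θ : ℝ) : Prop :=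
  0 ≤ θ ∧ θ ≤ 60 ∧ ∃ M, ∀ᶠ n in (U : Filter ℕ), ∀ t ∈ Icc 0 θ, ∀ m,
    α m * ‖Z n (X m) t‖ ≤ M ∧ α (m + 1) * ‖Z n (Y m) t‖ ≤ M

lemma Good.mono {U : Ultrafilter ℕ} {Z : ℕ → I → ℝ → ℂ} {θ θ' : ℝ} (h : Good α X Y U Z θ)
    (h0 : 0 ≤ θ') (h1 : θ' ≤ θ) : Good α X Y U Z θ' := by
  obtain ⟨a, b, M, hM⟩ := h
  refine ⟨h0, h1.trans b, M, hM.mono fun n hn t ht m => hn t ⟨ht.1, ht.2.trans h1⟩ m⟩

/-- the weighted initial data of the chain are bounded -/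
lemma x0_bd (hA : Chn α G b d) (k : ℕ) : ∃ M, ∀ n, α n ^ k * x0 α n ≤ M := by
  refine ⟨∑ n ∈ Finset.range (k + 1), α n ^ k + 1, fun n => ?_⟩
  have h1 := al1 hA n
  have hx : x0 α n ≤ 1 := by
    cases n with
    | zero => norm_num [x0]
    | succ n =>
      show (α (n + 1) ^ (n + 1 + 1))⁻¹ ≤ 1
      exact inv_le_one_of_one_le₀ (one_le_pow₀ h1)
  rcases lt_or_ge n (k + 1) with h | h
  · have h2 : α n ^ k ≤ ∑ n ∈ Finset.range (k + 1), α n ^ k :=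
      Finset.single_le_sum (f := fun n => α n ^ k) (fun m _ => (pow_pos (alpos hA m) k).le)
        (Finset.mem_range.2 h)
    have h3 : α n ^ k * x0 α n ≤ α n ^ k := mul_le_of_le_one_right (pow_pos (alpos hA n) k).le hx
    linarith
  · have h2 : 0 ≤ ∑ n ∈ Finset.range (k + 1), α n ^ k :=
      Finset.sum_nonneg fun m _ => (pow_pos (alpos hA m) k).le
    have h3 : α n ^ k * x0 α n ≤ 1 := by
      obtain ⟨m, rfl⟩ : ∃ m, n = m + 1 := ⟨n - 1, by omega⟩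
      show α (m + 1) ^ k * (α (m + 1) ^ (m + 1 + 1))⁻¹ ≤ 1
      rw [← div_eq_mul_inv]
      exact div_le_one_of_le₀ (pow_le_pow_right₀ h1 (by omega)) (pow_pos (alpos hA _) _).le
    linarith

/-- the initial data of the truncated solutions -/
lemma TSol.init_le (hA : Chn α G b d) (Mn : Mains lv bar σ c G b d X Y) (hv : MDat α X Y v) {n : ℕ}
    {z : I → ℝ → ℂ} (h : TSol S lv bar σ c v n z) :
    (∀ m, ‖z (X m) 0‖ ≤ x0 α m) ∧ ∀ m, z (Y m) 0 = 0 := by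
  refine ⟨fun m => ?_, fun m => ?_⟩
  · rcases le_or_gt (lv (X m)) n with h1 | h1
    · rw [h.init _ h1, hv.vX, Complex.norm_real, Real.norm_eq_abs, abs_of_pos (x0_pos hA m)]
    · rw [h.zero _ h1, norm_zero]; exact (x0_pos hA m).le
  · rcases le_or_gt (lv (Y m)) n with h1 | h1
    · rw [h.init _ h1, hv.vY]
    · rw [h.zero _ h1]

lemma good_zero (hA : Chn α G b d) (Mn : Mains lv bar σ c G b d X Y) (hv : MDat α X Y v)
    {U : Ultrafilter ℕ} {Z : ℕ → I → ℝ → ℂ}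
    (hZ : ∀ n, TSol S lv bar σ c v n (Z n)) : Good α X Y U Z 0 := by
  obtain ⟨M, hM⟩ := x0_bd hA 1
  refine ⟨le_rfl, by norm_num, M, Eventually.of_forall fun n t ht m => ?_⟩
  have h0 : t = 0 := le_antisymm ht.2 ht.1
  subst h0
  obtain ⟨h1, h2⟩ := (hZ n).init_le hA Mn hv
  have h3 := hM m
  rw [pow_one] at h3
  have h4 : α m * ‖Z n (X m) 0‖ ≤ α m * x0 α m :=
    mul_le_mul_of_nonneg_left (h1 m) (alpos hA m).le
  have h5 : 0 ≤ α m * x0 α m := mul_nonneg (alpos hA m).le (x0_pos hA m).le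
  refine ⟨h4.trans h3, ?_⟩
  rw [h2 m, norm_zero, mul_zero]
  exact h5.trans h3

lemma Good.lim {U : Ultrafilter ℕ} {Z : ℕ → I → ℝ → ℂ} {z : I → ℝ → ℂ} {θ : ℝ}
    (h : Good α X Y U Z θ)
    (hl : ∀ i, ∀ t ∈ Icc (0 : ℝ) 60, Tendsto (fun n => Z n i t) U (𝓝 (z i t))) :
    ∃ M, ∀ m, ∀ t ∈ Icc 0 θ, α m * ‖z (X m) t‖ ≤ M ∧ α (m + 1) * ‖z (Y m) t‖ ≤ M := by
  obtain ⟨h0, h1, M, hM⟩ := h
  refine ⟨M, fun m t ht => ⟨?_, ?_⟩⟩
  · have h2 := hl (X m) t ⟨ht.1, ht.2.trans h1⟩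
    have h3 : Tendsto (fun n => α m * ‖Z n (X m) t‖) U (𝓝 (α m * ‖z (X m) t‖)) :=
      h2.norm.const_mul _
    exact le_of_tendsto h3 (hM.mono fun n hn => (hn t ht m).1)
  · have h2 := hl (Y m) t ⟨ht.1, ht.2.trans h1⟩
    have h3 : Tendsto (fun n => α (m + 1) * ‖Z n (Y m) t‖) U (𝓝 (α (m + 1) * ‖z (Y m) t‖)) :=
      h2.norm.const_mul _
    exact le_of_tendsto h3 (hM.mono fun n hn => (hn t ht m).2)

/-- extension of the interval of good times -/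
lemma Good.extend (hPERS : S_PERS) (K : Ker lv bar σ c) (hA : Chn α G b d)
    (Mn : Mains lv bar σ c G b d X Y) (hv : MDat α X Y v)
    (hs : Summable (fun j => if σ j = 0 then 0 else β (lv j))) (hp : PB lv σ c α β)
    {Z : ℕ → I → ℝ → ℂ} (hZ : ∀ n, TSol S lv bar σ c v n (Z n))
    (hb : ∀ n j, σ j ≠ 0 → ∀ t ∈ Icc (0 : ℝ) 60, ‖Z n j t‖ ≤ β (lv j))
    {U : Ultrafilter ℕ} {z : I → ℝ → ℂ}
    (hl : ∀ i, ∀ t ∈ Icc (0 : ℝ) 60, Tendsto (fun n => Z n i t) U (𝓝 (z i t)))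
    {x δ M' : ℝ} (hX : 0 ≤ x)
    (hloc : ∀ (N : ℕ) (s e : ℝ) (x' y f g : ℕ → ℝ → ℂ), s ≤ e → e ≤ s + δ →
      CSol α G b d N s e x' y f g → (∀ n, N < n → ∀ t ∈ Icc s e, x' n t = 0) →
      (∀ n, N ≤ n → ∀ t ∈ Icc s e, y n t = 0) →
      (∀ n, α n ^ 3 * ‖x' n s‖ ≤ x + 1 ∧ α (n + 1) ^ 3 * ‖y n s‖ ≤ x + 1) →
      ∀ n, ∀ t ∈ Icc s e, α n * ‖x' n t‖ ≤ M' ∧ α (n + 1) * ‖y n t‖ ≤ M') (hδ : 0 < δ) {θ : ℝ}
    (h : Good α X Y U Z θ)
    (hθ : ∀ m, α m ^ 3 * ‖z (X m) θ‖ ≤ x ∧ α (m + 1) ^ 3 * ‖z (Y m) θ‖ ≤ x) :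
    Good α X Y U Z (min (θ + δ) 60) := by
  obtain ⟨h0, h1, M, hM⟩ := h
  obtain ⟨C, hC⟩ := hPERS α G b d hA 4 M
  have hθ60 : θ ∈ Icc (0 : ℝ) 60 := ⟨h0, h1⟩
  have hpos : ∀ m, 0 < α m := fun m => alpos hA m
  -- choose `n₀` with `C ≤ α m` for `m ≥ n₀`
  obtain ⟨n₀, hn₀⟩ : ∃ n₀ : ℕ, C ≤ (2 : ℝ) ^ n₀ := by
    obtain ⟨n, hn⟩ := pow_unbounded_of_one_lt C (by norm_num : (1 : ℝ) < 2)
    exact ⟨n, hn.le⟩
  have h2 : ∀ m, n₀ ≤ m → C ≤ α m := fun m hm =>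
    hn₀.trans ((pow_le_pow_right₀ (by norm_num) hm).trans (al_grow hA m))
  have h3 : ∀ᶠ n in (U : Filter ℕ), ∀ m ∈ Finset.range n₀,
      α m ^ 3 * ‖Z n (X m) θ‖ ≤ x + 1 ∧ α (m + 1) ^ 3 * ‖Z n (Y m) θ‖ ≤ x + 1 := by
    rw [Finset.eventually_all]
    intro m _
    have h4 : Tendsto (fun n => α m ^ 3 * ‖Z n (X m) θ‖) U
        (𝓝 (α m ^ 3 * ‖z (X m) θ‖)) := (hl (X m) θ hθ60).norm.const_mul _
    have h4' : Tendsto (fun n => α (m + 1) ^ 3 * ‖Z n (Y m) θ‖) U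
        (𝓝 (α (m + 1) ^ 3 * ‖z (Y m) θ‖)) := (hl (Y m) θ hθ60).norm.const_mul _
    have h5 : α m ^ 3 * ‖z (X m) θ‖ < x + 1 := lt_of_le_of_lt (hθ m).1 (by linarith)
    have h5' : α (m + 1) ^ 3 * ‖z (Y m) θ‖ < x + 1 := lt_of_le_of_lt (hθ m).2 (by linarith)
    exact ((h4.eventually (gt_mem_nhds h5)).and (h4'.eventually (gt_mem_nhds h5'))).mono
      fun n hn => ⟨hn.1.le, hn.2.le⟩
  refine ⟨le_min (by linarith) (by norm_num), min_le_right _ _, max M M', ?_⟩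
  filter_upwards [hM, h3] with n hn1 hn2 t ht m
  rcases le_total t θ with htθ | htθ
  · have := hn1 t ⟨ht.1, htθ⟩ m
    exact ⟨this.1.trans (le_max_left _ _), this.2.trans (le_max_left _ _)⟩
  · have hcs := (hZ n).csol K Mn hs hp (hb n) le_rfl h1 (s := 0) (e := θ)
    obtain ⟨hi1, hi2⟩ := (hZ n).init_le hA Mn hv
    have h6 := hC n θ _ _ _ _ h0 h1 hcs hi1 hi2 (fun m t ht => hn1 t ht m)
    have key : ∀ k : ℕ, ∀ r : ℝ, C ≤ α k → α k ^ 4 * r ≤ C → α k ^ 3 * r ≤ x + 1 := by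
      intro k r hk hr
      have h9 : α k * (α k ^ 3 * r) ≤ α k * 1 := by
        calc α k * (α k ^ 3 * r) = α k ^ 4 * r := by ring
          _ ≤ C := hr
          _ ≤ α k * 1 := by rw [mul_one]; exact hk
      have h10 := le_of_mul_le_mul_left h9 (hpos k)
      linarith
    have h7 : ∀ m, α m ^ 3 * ‖Z n (X m) θ‖ ≤ x + 1 ∧ α (m + 1) ^ 3 * ‖Z n (Y m) θ‖ ≤ x + 1 := by
      intro m
      rcases lt_or_ge m n₀ with hm | hm
      · exact hn2 m (Finset.mem_range.2 hm)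
      · refine ⟨?_, ?_⟩
        · rcases le_or_gt m n with hmn | hmn
          · exact key m _ (h2 m hm) (h6.1 m hmn θ ⟨h0, le_rfl⟩)
          · rw [(hZ n).zero (X m) (by rw [Mn.lX]; exact hmn) θ]
            simp only [norm_zero, mul_zero]
            linarith
        · rcases lt_or_ge m n with hmn | hmn
          · exact key (m + 1) _ (h2 (m + 1) (hm.trans (Nat.le_succ m)))
              (h6.2 m hmn θ ⟨h0, le_rfl⟩)
          · rw [(hZ n).zero (Y m) (by rw [Mn.lY]; omega) θ]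
            simp only [norm_zero, mul_zero]
            linarith
    have hcs2 := (hZ n).csol K Mn hs hp (hb n) h0 (min_le_right (θ + δ) 60) (s := θ)
    have h11 := hloc n θ (min (θ + δ) 60) _ _ _ _ (le_min (by linarith) h1) (min_le_left _ _) hcs2
      (fun m hm t _ => (hZ n).zero (X m) (by rw [Mn.lX]; exact hm) t)
      (fun m hm t _ => (hZ n).zero (Y m) (by rw [Mn.lY]; omega) t) h7 m t ⟨htθ, ht.2⟩
    exact ⟨h11.1.trans (le_max_right _ _), h11.2.trans (le_max_right _ _)⟩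

lemma KSol.mono {T T' : ℝ} {z : I → ℝ → ℂ} (h : KSol S lv bar σ c N T z) (hT : T' ≤ T) :
    KSol S lv bar σ c N T' z := by
  refine ⟨fun i t ht => h.real i t ⟨ht.1, ht.2.trans_le hT⟩,
    fun i t ht => (h.deriv i t ⟨ht.1, ht.2.trans_le hT⟩).mono
    (Ico_subset_Ico_right hT), fun k T'' hT'' => h.reg k T'' (hT''.trans_le hT)⟩

/-- the perturbation is small -/
lemma pb_of (hA : Chn α G b d) (hβ : ∀ m, 0 < β m)
    (hs : Summable (fun j => if σ j = 0 then 0 else β (lv j))) {R : ℕ → ℝ} (hR : ∀ m, 1 ≤ R m)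
    (h : ∀ i z, σ i = 0 → Adm σ z → ‖qd c z i - mq σ c z i‖ ≤
      R (lv i) * tail lv σ (lv i - 1) z)
    (h2 : ∀ n, ∑' j, (if σ j ≠ 0 ∧ n - 1 ≤ lv j then β (lv j) else 0) ≤ φc α n / R n) :
    PB lv σ c α β := by
  intro z hz hb i hi
  have hRn : 0 < R (lv i) := lt_of_lt_of_le one_pos (hR _)
  calc _ ≤ R (lv i) * tail lv σ (lv i - 1) z := h i z hi hz
    _ ≤ R (lv i) * (φc α (lv i) / R (lv i)) := by
        refine mul_le_mul_of_nonneg_left ((tail_le hβ hs hb _).trans (h2 _)) hRn.le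
    _ = φc α (lv i) := by field_simp

/-- regularity of the limit on the intervals of good times -/
lemma reg_of (hPERS : S_PERS) (K : Ker lv bar σ c) (hA : Chn α G b d)
    (Mn : Mains lv bar σ c G b d X Y) (hv : MDat α X Y v) (W : Wt lv σ α c N)
    (hβ1 : ∀ m : ℕ, β m ≤ Real.exp (-(m : ℝ) ^ 2))
    (hs : Summable (fun j => if σ j = 0 then 0 else β (lv j))) (hp : PB lv σ c α β)
    {z : I → ℝ → ℂ} (h : LSol S lv bar σ c β v z) {θ : ℝ} (h0 : 0 ≤ θ) (h1 : θ ≤ 60)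
    (hM : ∃ M, ∀ m, ∀ t ∈ Icc 0 θ, α m * ‖z (X m) t‖ ≤ M ∧ α (m + 1) * ‖z (Y m) t‖ ≤ M) (k : ℕ) :
    ∃ M, ∀ t ∈ Icc 0 θ, ∀ i, N i ^ k * ‖z i t‖ ≤ M := by
  obtain ⟨M, hM⟩ := hM
  obtain ⟨C, p, hCp⟩ := W.main
  obtain ⟨C', hC'⟩ := W.oth
  obtain ⟨M1, hM1⟩ := hPERS α G b d hA (p * k) M
  obtain ⟨M2, hM2⟩ := weight_exp C' k
  have hpos : ∀ m, 0 < α m := fun m => alpos hA m
  refine ⟨max (|C| ^ k * |M1|) M2, fun t ht i => ?_⟩
  have ht60 : t ∈ Icc (0 : ℝ) 60 := ⟨ht.1, ht.2.trans h1⟩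
  by_cases hi : σ i = 0
  · refine le_trans ?_ (le_max_left _ _)
    have h3 : ∀ n, α n ^ (p * k) * ‖z (X n) t‖ ≤ M1 ∧ α (n + 1) ^ (p * k) * ‖z (Y n) t‖ ≤ M1 := by
      intro n
      have h4 := hM1 (n + 1) θ _ _ _ _ h0 h1 (h.csol K Mn hs hp (n + 1) le_rfl h1)
        (fun m => by
          show ‖z (X m) 0‖ ≤ x0 α m
          rw [h.init, hv.vX, Complex.norm_real, Real.norm_eq_abs, abs_of_pos (x0_pos hA m)])
        (fun m => by show z (Y m) 0 = 0; rw [h.init, hv.vY]) hM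
      exact ⟨h4.1 n (Nat.le_succ n) t ht, h4.2 n (Nat.lt_succ_self n) t ht⟩
    have h5 : α (lv i) ^ (p * k) * ‖z i t‖ ≤ M1 :=
      main_le K Mn (z := fun a => z a t) (fun i => h.real i t ht60)
        (f := fun n => α n ^ (p * k)) h3 i hi
    have h4 : N i ≤ |C| * α (lv i) ^ p :=
      (hCp i hi).trans (mul_le_mul_of_nonneg_right (le_abs_self C) (pow_pos (hpos _) _).le)
    have hN : 0 ≤ N i := le_trans zero_le_one (W.one _)
    calc N i ^ k * ‖z i t‖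
        ≤ (|C| * α (lv i) ^ p) ^ k * ‖z i t‖ :=
          mul_le_mul_of_nonneg_right (pow_le_pow_left₀ hN h4 k) (norm_nonneg _)
      _ = |C| ^ k * (α (lv i) ^ (p * k) * ‖z i t‖) := by rw [mul_pow, pow_mul]; ring
      _ ≤ |C| ^ k * |M1| :=
          mul_le_mul_of_nonneg_left (h5.trans (le_abs_self _)) (pow_nonneg (abs_nonneg _) _)
  · refine le_trans ?_ (le_max_right _ _)
    have h5 : N i ≤ (|C'| + 1) ^ (lv i + 1) := by
      refine (hC' i hi).trans ((le_abs_self _).trans ?_)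
      rw [abs_pow]
      exact pow_le_pow_left₀ (abs_nonneg _) (by linarith) _
    have hN : 0 ≤ N i := le_trans zero_le_one (W.one _)
    calc N i ^ k * ‖z i t‖
        ≤ ((|C'| + 1) ^ (lv i + 1)) ^ k * Real.exp (-(lv i : ℝ) ^ 2) :=
          mul_le_mul (pow_le_pow_left₀ hN h5 k)
            ((h.bdd i hi t ht60).trans (hβ1 _)) (norm_nonneg _) (by positivity)
      _ = (|C'| + 1) ^ ((lv i + 1) * k) * Real.exp (-(lv i : ℝ) ^ 2) := by rw [← pow_mul]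
      _ ≤ M2 := hM2 _

end

theorem t_BLOWM_of (hGAL : S_GAL) (hDEC : S_DEC) (hBOOT : S_BOOT) (hLIM : S_LIM)
    (hPERS : S_PERS) (hLOC : S_LOC) (hRIC : S_RIC) (hSEQB : S_SEQB) (hUNI : S_UNI) : S_BLOWM := by
  intro I lv bar σ c α G b d X Y N v K hA Mn W hd hv
  obtain ⟨R, hR1, -, -, hR4⟩ := hDEC I lv bar σ c K
  obtain ⟨β, hβ0, hβ1, hs, hβ2⟩ := hSEQB I lv σ K.fin (fun n => φc α n / R n)
    (fun n => div_pos (φc_pos hA n) (lt_of_lt_of_le one_pos (hR1 n)))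
  have hp : PB lv σ c α β := pb_of hA hβ0 hs hR1 hR4 hβ2
  obtain ⟨S, hS1, hS⟩ := hBOOT I lv bar σ c β K hβ0
  choose Z hZ using hGAL I lv bar σ c S v K hd
  have hb : ∀ n j, σ j ≠ 0 → ∀ t ∈ Icc (0 : ℝ) 60, ‖Z n j t‖ ≤ β (lv j) :=
    fun n j hj t ht => hS v hd n (Z n) (hZ n) j hj t ht
  set U : Ultrafilter ℕ := Filter.hyperfilter ℕ with hU
  obtain ⟨z, hz, hl⟩ := hLIM I lv bar σ c β S v K hd hβ0 hs Z hZ hb U Nat.hyperfilter_le_atTop
  have hpos : ∀ m, 0 < α m := fun m => alpos hA m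
  have hzX : ∀ n, z (X n) 0 = (x0 α n : ℝ) := fun n => by rw [hz.init, hv.vX]
  have hzY : ∀ n, z (Y n) 0 = 0 := fun n => by rw [hz.init, hv.vY]
  have hzX' : ∀ n, ‖z (X n) 0‖ ≤ x0 α n := fun n => by
    rw [hzX, Complex.norm_real, Real.norm_eq_abs, abs_of_pos (x0_pos hA n)]
  -- the good times are at most `30`
  have h30 : ∀ θ, Good α X Y U Z θ → θ ≤ 30 := by
    intro θ hθ
    obtain ⟨M, hM⟩ := hθ.lim hl
    exact hRIC α G b d hA θ _ _ _ _ hθ.1 hθ.2.1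
      (fun n => hz.csol K Mn hs hp n le_rfl hθ.2.1) hzX hzY ⟨M, hM⟩
  have hG0 : Good α X Y U Z 0 := good_zero hA Mn hv hZ
  set Gd : Set ℝ := {θ | Good α X Y U Z θ} with hG
  have hbdd : BddAbove Gd := ⟨30, fun θ hθ => h30 θ hθ⟩
  set T := sSup Gd with hT
  have hTle : T ≤ 30 := csSup_le ⟨0, hG0⟩ fun θ hθ => h30 θ hθ
  have hlt : ∀ θ, 0 ≤ θ → θ < T → Good α X Y U Z θ := by
    intro θ h0 h1
    obtain ⟨θ', h2, h3⟩ := exists_lt_of_lt_csSup ⟨0, hG0⟩ h1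
    exact Good.mono h2 h0 h3.le
  have hTpos : 0 < T := by
    obtain ⟨M3, hM3⟩ := x0_bd hA 3
    obtain ⟨δ, M', hδ, hloc⟩ := hLOC α G b d hA (|M3| + 1)
    have h1 : Good α X Y U Z (min (0 + δ) 60) := by
      refine Good.extend hPERS K hA Mn hv hs hp hZ hb hl (abs_nonneg M3) hloc hδ hG0 fun m => ?_
      refine ⟨?_, ?_⟩
      · exact (mul_le_mul_of_nonneg_left (hzX' m) (pow_pos (hpos m) 3).le).trans
          ((hM3 m).trans (le_abs_self _))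
      · rw [hzY, norm_zero, mul_zero]; exact abs_nonneg _
    have h2 : 0 < min (0 + δ) 60 := lt_min (by linarith) (by norm_num)
    exact lt_of_lt_of_le h2 (le_csSup hbdd h1)
  have hsub : Ico 0 T ⊆ Icc (0 : ℝ) 60 := fun t ht => ⟨ht.1, by linarith [ht.2]⟩
  -- the limit is a regular solution on `[0, T)`
  have hK : KSol S lv bar σ c N T z := by
    refine ⟨fun i t ht => hz.real i t (hsub ht),
      fun i t ht => (hz.deriv i t (hsub ht)).mono hsub, fun k T' hT' => ?_⟩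
    rcases lt_or_ge T' 0 with h0 | h0
    · exact ⟨0, fun t ht => absurd (ht.1.trans ht.2) (not_le.2 h0)⟩
    · have hg := hlt T' h0 hT'
      exact reg_of hPERS K hA Mn hv W hβ1 hs hp hz h0 hg.2.1 (hg.lim hl) k
  -- the main modes are unbounded
  have hunb' : ∀ M : ℝ, ∃ t ∈ Ico 0 T, ∃ n,
      M < α n * ‖z (X n) t‖ ∨ M < α (n + 1) * ‖z (Y n) t‖ := by
    intro M
    by_contra hcon
    push Not at hcon
    obtain ⟨C, hC⟩ := hPERS α G b d hA 3 M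
    have h1 : ∀ t ∈ Ico 0 T, ∀ n, α n ^ 3 * ‖z (X n) t‖ ≤ |C| ∧
        α (n + 1) ^ 3 * ‖z (Y n) t‖ ≤ |C| := by
      intro t ht n
      have hg := hlt t ht.1 ht.2
      have h2 := hC (n + 1) t _ _ _ _ ht.1 hg.2.1 (hz.csol K Mn hs hp (n + 1) le_rfl hg.2.1)
        hzX' hzY (fun m s hs' => hcon s ⟨hs'.1, hs'.2.trans_lt ht.2⟩ m)
      exact ⟨(h2.1 n (Nat.le_succ n) t ⟨ht.1, le_rfl⟩).trans (le_abs_self _),
        (h2.2 n (Nat.lt_succ_self n) t ⟨ht.1, le_rfl⟩).trans (le_abs_self _)⟩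
    obtain ⟨δ, M', hδ, hloc⟩ := hLOC α G b d hA (|C| + 1)
    set θ := max 0 (T - δ / 2) with hθ
    have hθ0 : 0 ≤ θ := le_max_left _ _
    have hθT : θ < T := max_lt hTpos (by linarith)
    have h2 := Good.extend hPERS K hA Mn hv hs hp hZ hb hl (abs_nonneg C) hloc hδ
      (hlt θ hθ0 hθT) (h1 θ ⟨hθ0, hθT⟩)
    have h3 : min (θ + δ) 60 ≤ T := le_csSup hbdd h2
    have h4 : T < min (θ + δ) 60 := by
      refine lt_min ?_ (by linarith)
      have := le_max_right 0 (T - δ / 2)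
      linarith
    linarith
  have hunb : ∀ M : ℝ, ∃ t ∈ Ico 0 T, ∃ i, σ i = 0 ∧ M < α (lv i) * ‖z i t‖ := by
    intro M
    obtain ⟨t, ht, n, h | h⟩ := hunb' M
    · exact ⟨t, ht, X n, Mn.sX n, by rw [Mn.lX]; exact h⟩
    · exact ⟨t, ht, Y n, Mn.sY n, by rw [Mn.lY]; exact h⟩
  refine ⟨S, hS1, T, z, hTpos, hTle, hK, hz.init, ?_, ?_, hunb⟩
  · intro T' z' hT' hK' hi'
    have hinit : ∀ i, z' i 0 = z i 0 := fun i => by rw [hi', hz.init]
    have heq : ∀ i, ∀ t ∈ Ico 0 (min T' T), z' i t = z i t :=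
      (hUNI I lv bar σ c S α N (min T' T) K W).2 z' z (hK'.mono (min_le_left _ _))
        (hK.mono (min_le_right _ _)) hinit
    have hle : T' ≤ T := by
      by_contra hcon
      rw [not_le] at hcon
      rw [min_eq_right hcon.le] at heq
      obtain ⟨C, p, hCp⟩ := W.main'
      obtain ⟨M, hM⟩ := hK'.reg p T hcon
      obtain ⟨t, ht, i, hi, hn⟩ := hunb (|C| * M)
      have h5 := hM t ⟨ht.1, ht.2.le⟩ i
      rw [heq _ t ht] at h5
      have h6 : α (lv i) * ‖z i t‖ ≤ |C| * (N i ^ p * ‖z i t‖) := by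
        rw [← mul_assoc]
        refine mul_le_mul_of_nonneg_right ?_ (norm_nonneg _)
        refine (hCp i hi).trans (mul_le_mul_of_nonneg_right (le_abs_self C) ?_)
        exact pow_nonneg (le_trans zero_le_one (W.one _)) _
      have h7 : |C| * (N i ^ p * ‖z i t‖) ≤ |C| * M :=
        mul_le_mul_of_nonneg_left h5 (abs_nonneg _)
      linarith
    refine ⟨hle, fun i t ht => ?_⟩
    rw [min_eq_left hle] at heq
    exact heq i t ht
  · intro t ht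
    have h1 := (hUNI I lv bar σ c S α N T K W).1 z hK t ht
    refine ⟨h1.1, h1.2.trans ?_⟩
    congr 1
    funext a
    rw [hz.init]

end Pool.Agent.Y6.M
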