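import Mathlib

/-!
Definitions for the Euler equations with an additional skew-adjoint Fourier multiplier
(periodic fields, Fourier coefficients; amplitudes with respect to helical vectors).
-/

open Set Filter Topology
open scoped ComplexConjugate

set_option autoImplicit false

namespace Pool.Agent.Y6.M

/-! ### Abstract systems -/

/-- The quadratic term. -/
noncomputable def qd {I : Type} (c : I → I → I → ℂ) (z : I → ℂ) (i : I) : ℂ :=
  ∑' p : I × I, c i p.1 p.2 * z p.1 * z p.2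

/-- The interactions of two main modes (`σ = 0`). -/
noncomputable def mq {I : Type} (σ : I → ℝ) (c : I → I → I → ℂ) (z : I → ℂ) (i : I) : ℂ :=
  open Classical in
  ∑' p : I × I, if σ p.1 = 0 ∧ σ p.2 = 0 then c i p.1 p.2 * z p.1 * z p.2 else 0

/-- The linear term: the mode `i` is rotated with the speed `S (lv i) * σ i`. -/
noncomputable def Kz {I : Type} (S : ℕ → ℝ) (lv : I → ℕ) (σ : I → ℝ) (z : I → ℂ) (i : I) : ℂ :=
  Complex.I * ((S (lv i) * σ i : ℝ) : ℂ) * z i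

/-- Interaction kernels. The main modes are those with `σ = 0`. -/
structure Ker {I : Type} (lv : I → ℕ) (bar : I → I) (σ : I → ℝ) (c : I → I → I → ℂ) : Prop where
  inv : ∀ i, bar (bar i) = i
  lbar : ∀ i, lv (bar i) = lv i
  sbar : ∀ i, σ (bar i) = -σ i
  unit : ∀ i, σ i = 0 ∨ σ i ^ 2 = 1
  fin : ∀ m, {i | lv i ≤ m}.Finite
  real : ∀ i a b, c (bar i) (bar a) (bar b) = conj (c i a b)
  anti : ∀ i a b, c i a b = -conj (c b (bar a) i)
  bdd : ∀ i, ∃ R, ∀ a b, ‖c i a b‖ ≤ R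
  deg : ∃ D : ℕ, ∀ i a, ({b | c i a b ≠ 0}.Finite ∧ {b | c i a b ≠ 0}.ncard ≤ D) ∧
    ({b | c i b a ≠ 0}.Finite ∧ {b | c i b a ≠ 0}.ncard ≤ D)
  mfin : ∀ i, {p : I × I | σ p.1 = 0 ∧ σ p.2 = 0 ∧ c i p.1 p.2 ≠ 0}.Finite
  sep : ∀ i a b, σ i = 0 → c i a b ≠ 0 → (σ a ≠ 0 ∨ σ b ≠ 0) →
    ∃ j, (j = a ∨ j = b) ∧ σ j ≠ 0 ∧ lv i ≤ lv j + 1

/-- quantities of a vector of modes which we can control -/
structure Adm {I : Type} (σ : I → ℝ) (z : I → ℂ) : Prop where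
  sq : Summable (fun a => ‖z a‖ ^ 2)
  le : ∑' a, ‖z a‖ ^ 2 ≤ 1
  oth : Summable (fun j => if σ j = 0 then 0 else ‖z j‖)

/-- sum of the moduli of the other modes of the levels `≥ P` -/
noncomputable def tail {I : Type} (lv : I → ℕ) (σ : I → ℝ) (P : ℕ) (z : I → ℂ) : ℝ :=
  ∑' j, if σ j ≠ 0 ∧ P ≤ lv j then ‖z j‖ else 0

/-- Initial data, supported on the main modes. -/
structure Dat {I : Type} (bar : I → I) (σ : I → ℝ) (v : I → ℂ) : Prop where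
  real : ∀ i, v (bar i) = conj (v i)
  main : ∀ i, σ i ≠ 0 → v i = 0
  sq : Summable (fun a => ‖v a‖ ^ 2)
  le : ∑' a, ‖v a‖ ^ 2 ≤ 1

/-- Solutions of the truncated system (modes of the levels `≤ N`) on `[0, 60]`. -/
structure TSol {I : Type} (S : ℕ → ℝ) (lv : I → ℕ) (bar : I → I) (σ : I → ℝ)
    (c : I → I → I → ℂ) (v : I → ℂ) (N : ℕ) (z : I → ℝ → ℂ) : Prop where
  zero : ∀ i, N < lv i → ∀ t, z i t = 0
  real : ∀ i, ∀ t ∈ Icc (0 : ℝ) 60, z (bar i) t = conj (z i t)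
  deriv : ∀ i, lv i ≤ N → ∀ t ∈ Icc (0 : ℝ) 60, HasDerivWithinAt (z i)
    (Kz S lv σ (fun a => z a t) i + qd c (fun a => z a t) i) (Icc 0 60) t
  init : ∀ i, lv i ≤ N → z i 0 = v i
  energy : ∀ t ∈ Icc (0 : ℝ) 60, ∑' a, ‖z a t‖ ^ 2 ≤ 1

/-- Solutions of the full system on `[0, 60]` with controlled other modes. -/
structure LSol {I : Type} (S : ℕ → ℝ) (lv : I → ℕ) (bar : I → I) (σ : I → ℝ)
    (c : I → I → I → ℂ) (β : ℕ → ℝ) (v : I → ℂ) (z : I → ℝ → ℂ) : Prop where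
  real : ∀ i, ∀ t ∈ Icc (0 : ℝ) 60, z (bar i) t = conj (z i t)
  deriv : ∀ i, ∀ t ∈ Icc (0 : ℝ) 60, HasDerivWithinAt (z i)
    (Kz S lv σ (fun a => z a t) i + qd c (fun a => z a t) i) (Icc 0 60) t
  init : ∀ i, z i 0 = v i
  energy : ∀ t ∈ Icc (0 : ℝ) 60, Summable (fun a => ‖z a t‖ ^ 2) ∧ ∑' a, ‖z a t‖ ^ 2 ≤ 1
  bdd : ∀ j, σ j ≠ 0 → ∀ t ∈ Icc (0 : ℝ) 60, ‖z j t‖ ≤ β (lv j)

/-- Weights. -/
structure Wt {I : Type} (lv : I → ℕ) (σ : I → ℝ) (α : ℕ → ℝ) (c : I → I → I → ℂ)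
    (N : I → ℝ) : Prop where
  one : ∀ i, 1 ≤ N i
  size : ∃ (C : ℝ) (p : ℕ), ∀ i a b, ‖c i a b‖ ≤ C * N i ^ p
  summ : ∃ p : ℕ, Summable (fun i => (N i ^ p)⁻¹)
  main : ∃ (C : ℝ) (p : ℕ), ∀ i, σ i = 0 → N i ≤ C * α (lv i) ^ p
  main' : ∃ (C : ℝ) (p : ℕ), ∀ i, σ i = 0 → α (lv i) ≤ C * N i ^ p
  oth : ∃ C : ℝ, ∀ j, σ j ≠ 0 → N j ≤ C ^ (lv j + 1)

/-- Regular solutions of the full system on `[0, T)`. -/
structure KSol {I : Type} (S : ℕ → ℝ) (lv : I → ℕ) (bar : I → I) (σ : I → ℝ)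
    (c : I → I → I → ℂ) (N : I → ℝ) (T : ℝ) (z : I → ℝ → ℂ) : Prop where
  real : ∀ i, ∀ t ∈ Ico 0 T, z (bar i) t = conj (z i t)
  deriv : ∀ i, ∀ t ∈ Ico 0 T, HasDerivWithinAt (z i)
    (Kz S lv σ (fun a => z a t) i + qd c (fun a => z a t) i) (Ico 0 T) t
  reg : ∀ k : ℕ, ∀ T' < T, ∃ M, ∀ t ∈ Icc 0 T', ∀ i, N i ^ k * ‖z i t‖ ≤ M

/-! ### The chain -/

/-- the vector field of the modes `x` -/
noncomputable def cX (G : ℕ → ℂ) (b d : ℕ → ℝ) (x y : ℕ → ℂ) : ℕ → ℂ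
  | 0 => -(conj (G 0) * (b 0 + d 0 : ℝ) * y 0 * conj (x 1))
  | n + 1 => conj (G n) * (b n : ℝ) * y n * conj (x n) -
      conj (G (n + 1)) * (b (n + 1) + d (n + 1) : ℝ) * y (n + 1) * conj (x (n + 2))

/-- the vector field of the modes `y` -/
noncomputable def cY (G : ℕ → ℂ) (d : ℕ → ℝ) (x : ℕ → ℂ) (n : ℕ) : ℂ :=
  G n * (d n : ℝ) * x n * x (n + 1)

/-- Coefficients of the chain: the triad `n` consists of `x n`, `x (n + 1)`, `y n`. -/
structure Chn (α : ℕ → ℝ) (G : ℕ → ℂ) (b d : ℕ → ℝ) : Prop where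
  A0 : 10 ^ 40 ≤ α 0
  step : ∀ n, α (n + 1) = α n ^ (2 * n + 8)
  dpos : ∀ n, 0 < d n
  db : ∀ n, d n ≤ b n
  bd : ∀ n, b n ≤ 2 * d n
  lo : ∀ n, α n ≤ ‖G n‖ * d n
  hi : ∀ n, ‖G n‖ * b n ≤ 3 * α n

/-- thresholds -/
noncomputable def Uth (α : ℕ → ℝ) (n : ℕ) : ℝ := (√(α n))⁻¹

/-- initial amplitudes -/
noncomputable def εc (α : ℕ → ℝ) (n : ℕ) : ℝ := (α n ^ (n + 1))⁻¹

/-- the initial values of the modes `x` -/
noncomputable def x0 (α : ℕ → ℝ) : ℕ → ℝ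
  | 0 => 1 / 2
  | n + 1 => εc α (n + 1)

/-- bounds of the perturbations -/
noncomputable def φc (α : ℕ → ℝ) (n : ℕ) : ℝ := (α n ^ (4 * n + 8))⁻¹

/-- Solutions of the chain with small perturbations on `[s, e]`, for the levels `≤ N` (the mode
`x n` has the level `n`, the mode `y n` has the level `n + 1`). -/
structure CSol (α : ℕ → ℝ) (G : ℕ → ℂ) (b d : ℕ → ℝ) (N : ℕ) (s e : ℝ)
    (x y f g : ℕ → ℝ → ℂ) : Prop where
  dx : ∀ n ≤ N, ∀ t ∈ Icc s e, HasDerivWithinAt (x n)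
    (cX G b d (fun m => x m t) (fun m => y m t) n + f n t) (Icc s e) t
  dy : ∀ n < N, ∀ t ∈ Icc s e, HasDerivWithinAt (y n)
    (cY G d (fun m => x m t) n + g n t) (Icc s e) t
  pf : ∀ n, ∀ t ∈ Icc s e, ‖f n t‖ ≤ φc α n
  pg : ∀ n, ∀ t ∈ Icc s e, ‖g n t‖ ≤ φc α (n + 1)
  one : ∀ n, ∀ t ∈ Icc s e, ‖x n t‖ ≤ 1 ∧ ‖y n t‖ ≤ 1

/-- The main modes of an abstract system and their interactions. -/
structure Mains {I : Type} (lv : I → ℕ) (bar : I → I) (σ : I → ℝ) (c : I → I → I → ℂ)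
    (G : ℕ → ℂ) (b d : ℕ → ℝ) (X Y : ℕ → I) : Prop where
  lX : ∀ n, lv (X n) = n
  lY : ∀ n, lv (Y n) = n + 1
  sX : ∀ n, σ (X n) = 0
  sY : ∀ n, σ (Y n) = 0
  all : ∀ i, σ i = 0 → ∃ n, i = X n ∨ i = bar (X n) ∨ i = Y n ∨ i = bar (Y n)
  tX : ∀ z : I → ℂ, (∀ i, z (bar i) = conj (z i)) → ∀ n,
    mq σ c z (X n) = cX G b d (fun m => z (X m)) (fun m => z (Y m)) n
  tY : ∀ z : I → ℂ, (∀ i, z (bar i) = conj (z i)) → ∀ n,
    mq σ c z (Y n) = cY G d (fun m => z (X m)) n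

/-- the initial data on the main modes -/
structure MDat {I : Type} (α : ℕ → ℝ) (X Y : ℕ → I) (v : I → ℂ) : Prop where
  vX : ∀ n, v (X n) = (x0 α n : ℝ)
  vY : ∀ n, v (Y n) = 0

/-! ### Fourier coefficients -/

abbrev Z3 := Fin 3 → ℤ
abbrev C3 := Fin 3 → ℂ

/-- Fourier coefficients of a vector field, `u(x) = ∑ V k e^{2 π i k·x}` -/
abbrev Coef := Z3 → C3

/-- bilinear product -/
noncomputable def dt (a b : C3) : ℂ := ∑ j, a j * b j

/-- cross product -/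
noncomputable def cr (a b : C3) : C3 :=
  ![a 1 * b 2 - a 2 * b 1, a 2 * b 0 - a 0 * b 2, a 0 * b 1 - a 1 * b 0]

/-- complex conjugation -/
noncomputable def cj (a : C3) : C3 := fun j => conj (a j)

/-- the vector `k` -/
noncomputable def kc (k : Z3) : C3 := fun j => (k j : ℂ)

/-- square of the length of `k` -/
def nsq (k : Z3) : ℤ := ∑ j, k j ^ 2

/-- the length of `k` -/
noncomputable def len (k : Z3) : ℝ := √(nsq k : ℝ)

/-- the coefficients of `(u · ∇) u` -/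
noncomputable def adv (V : Coef) (k : Z3) : C3 := fun j =>
  ∑' p : Z3, 2 * Real.pi * Complex.I * dt (V p) (kc (k - p)) * V (k - p) j

/-- the Leray projection: `w - (k·w) k / |k|²` -/
noncomputable def leray (k : Z3) (w : C3) : C3 := fun j =>
  w j - dt (kc k) w / ((nsq k : ℝ) : ℂ) * kc k j

/-- the multiplier `K`: `(K u)^(k) = i m(k) û(k) - n(k) (k/|k|) × û(k)` -/
noncomputable def Kop (m n : Z3 → ℝ) (V : Coef) (k : Z3) : C3 := fun j =>
  Complex.I * (m k : ℂ) * V k j - ((n k / len k : ℝ) : ℂ) * cr (kc k) (V k) j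

/-- Real divergence free fields of mean zero, `C^∞` on the torus `ℝ³ / ℤ³`. -/
structure IsField (V : Coef) : Prop where
  zero : V 0 = 0
  real : ∀ k j, V (-k) j = conj (V k j)
  div : ∀ k, dt (kc k) (V k) = 0
  smooth : ∀ q : ℕ, ∃ M, ∀ k j, len k ^ q * ‖V k j‖ ≤ M

/-- Smooth solutions on `[0, T)` of `∂ₜ u + (u · ∇) u + ∇ p = K u`, `div u = 0` -/
structure IsSol (m n : Z3 → ℝ) (T : ℝ) (V : ℝ → Coef) : Prop where
  field : ∀ t ∈ Ico 0 T, IsField (V t)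
  reg : ∀ q : ℕ, ∀ T' < T, ∃ M, ∀ t ∈ Icc 0 T', ∀ k j, len k ^ q * ‖V t k j‖ ≤ M
  eqn : ∀ k, k ≠ 0 → ∀ j, ∀ t ∈ Ico 0 T, HasDerivWithinAt (fun s => V s k j)
    (Kop m n (V t) k j - leray k (adv (V t) k) j) (Ico 0 T) t

/-- `∫ |u|²` -/
noncomputable def energy (V : Coef) : ℝ := ∑' k, ∑ j, ‖V k j‖ ^ 2

/-- `∫ |∇u|² / (4 π²)` -/
noncomputable def enstr (V : Coef) : ℝ := ∑' k, (nsq k : ℝ) * ∑ j, ‖V k j‖ ^ 2

/-! ### The concrete system -/

/-- modes: a frequency and a helicity (`true` is `+`) -/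
abbrev Md := {k : Z3 // k ≠ 0} × Bool

/-- the sign of the helicity -/
noncomputable def hs (s : Bool) : ℝ := if s then 1 else -1

/-- the opposite mode -/
def br (i : Md) : Md := (⟨-i.1.1, neg_ne_zero.2 i.1.2⟩, i.2)

/-- Helical vectors. -/
structure Frame (h : Md → C3) : Prop where
  unit : ∀ i, dt (h i) (cj (h i)) = 1
  orth : ∀ k, dt (h (k, true)) (cj (h (k, false))) = 0
  perp : ∀ i, dt (kc i.1.1) (h i) = 0
  eig : ∀ i j, Complex.I * cr (kc i.1.1) (h i) j = (hs i.2 * len i.1.1 : ℝ) * h i j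
  bar : ∀ i, h (br i) = cj (h i)
  compl : ∀ (k : {k : Z3 // k ≠ 0}) (v : C3), dt (kc k.1) v = 0 → ∀ j,
    v j = dt v (cj (h (k, true))) * h (k, true) j + dt v (cj (h (k, false))) * h (k, false) j

/-- the kernel -/
noncomputable def cK (h : Md → C3) (i a b : Md) : ℂ :=
  open Classical in
  if a.1.1 + b.1.1 = i.1.1 then
    -(2 * Real.pi * Complex.I) * dt (h a) (kc b.1.1) * dt (h b) (cj (h i)) else 0

/-- the lengths of the frequencies of the chain -/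
def al : ℕ → ℕ
  | 0 => 10 ^ 40
  | n + 1 => al n ^ (2 * n + 8)

/-- the frequencies of the modes `x`: `k n = α n e_{n mod 3}` -/
def kx (n : ℕ) : Z3 := fun j => if j.1 = n % 3 then (al n : ℤ) else 0

lemma al_pos (n : ℕ) : 0 < al n := by
  induction n with
  | zero => exact pow_pos (by norm_num) _
  | succ n ih => exact pow_pos ih _

lemma kx_ne (n : ℕ) : kx n ≠ 0 := by
  intro h
  have h1 := congrFun h ⟨n % 3, Nat.mod_lt _ (by norm_num)⟩
  have h2 : kx n ⟨n % 3, Nat.mod_lt _ (by norm_num)⟩ = (al n : ℤ) := if_pos rfl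
  rw [h2] at h1
  have := al_pos n
  simp at h1
  omega

lemma ky_ne (n : ℕ) : kx n + kx (n + 1) ≠ 0 := by
  intro h
  have h1 := congrFun h ⟨n % 3, Nat.mod_lt _ (by norm_num)⟩
  have h2 : kx n ⟨n % 3, Nat.mod_lt _ (by norm_num)⟩ = (al n : ℤ) := if_pos rfl
  have h3 : kx (n + 1) ⟨n % 3, Nat.mod_lt _ (by norm_num)⟩ = 0 := if_neg (by
    show ¬ n % 3 = (n + 1) % 3
    omega)
  rw [Pi.add_apply, h2, h3] at h1
  have := al_pos n
  simp at h1
  omega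

/-- the modes `x` of the chain -/
def Xm (n : ℕ) : Md := (⟨kx n, kx_ne n⟩, true)

/-- the modes `y` of the chain -/
def Ym (n : ℕ) : Md := (⟨kx n + kx (n + 1), ky_ne n⟩, false)

/-- the main modes of the level `n` -/
def ML (n : ℕ) (i : Md) : Prop :=
  i = Xm n ∨ i = br (Xm n) ∨ ∃ m, n = m + 1 ∧ (i = Ym m ∨ i = br (Ym m))

/-- the level of a mode -/
noncomputable def lvM (i : Md) : ℕ :=
  open Classical in
  if h : ∃ n, ML n i then Nat.find h else (nsq i.1.1).toNat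

/-- the sign of a frequency: the sign of the first coordinate which is not zero -/
def sgz (k : Z3) : ℤ := if k 0 ≠ 0 then (k 0).sign else if k 1 ≠ 0 then (k 1).sign else (k 2).sign

/-- the sign of the rotation of a mode, zero for the main modes -/
noncomputable def σM (i : Md) : ℝ :=
  open Classical in
  if ∃ n, ML n i then 0 else (sgz i.1.1 : ℝ)

/-- the lengths, as real numbers -/
noncomputable def αM (n : ℕ) : ℝ := (al n : ℝ)

/-- the coefficients of the chain -/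
noncomputable def GM (h : Md → C3) (n : ℕ) : ℂ :=
  2 * Real.pi * dt (cj (h (Ym n))) (cr (h (Xm n)) (h (Xm (n + 1))))

/-- the length of the frequency of `y n` -/
noncomputable def ρM (n : ℕ) : ℝ := √(αM n ^ 2 + αM (n + 1) ^ 2)

noncomputable def bM (n : ℕ) : ℝ := αM n + ρM n

noncomputable def dM (n : ℕ) : ℝ := αM (n + 1) - αM n

/-- the weight of a mode -/
noncomputable def NM (i : Md) : ℝ := (nsq i.1.1 : ℝ)

/-- the initial data -/
noncomputable def vM (i : Md) : ℂ :=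
  open Classical in
  if h : ∃ n, i = Xm n ∨ i = br (Xm n) then ((x0 αM (Nat.find h) : ℝ) : ℂ) else 0

end Pool.Agent.Y6.M
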