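import Pool.Agent.Y6.M.Main

/-!
Finite-time blow-up for the three-dimensional periodic Euler equations with an additional
skew-adjoint Fourier multiplier `K` (the nonlinearity is exactly that of the Euler equations; `K`
commutes with all translations, all derivatives and the curl, and drops out of every `H^s` energy
identity), from `C^∞` data.
-/

open Set

namespace Pool.Agent.Y6.M.FourierMultiplier

open Pool.Agent.Y6.M

theorem result : ∃ (m n : Z3 → ℝ) (T : ℝ) (V : ℝ → Coef), (∀ k, m (-k) = -m k) ∧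
    (∀ k, n (-k) = -n k) ∧ 0 < T ∧ T ≤ 30 ∧ IsSol m n T V ∧
    (∀ (T' : ℝ) (W : ℝ → Coef), 0 < T' → IsSol m n T' W → W 0 = V 0 →
      T' ≤ T ∧ ∀ t ∈ Ico 0 T', W t = V t) ∧
    (∀ t ∈ Ico 0 T, energy (V t) = energy (V 0)) ∧
    ∀ M : ℝ, ∃ t ∈ Ico 0 T, M < enstr (V t) :=
  t_MAINM

end Pool.Agent.Y6.M.FourierMultiplier
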