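import Pool.Agent.Y6.M.Blow
import Pool.Agent.Y394.EM.AVG
import Pool.Agent.Y153.EM.Gal
import Pool.Agent.Y219.EM.DEC
import Pool.Agent.Y502.EM.Boot
import Pool.Agent.Y604.EM.LIM
import Pool.Agent.Y261.EM.SeqB
import Pool.Agent.Y154.EM.UNI
import Pool.Agent.Y949.EM.Ars
import Pool.Agent.Y681.EM.Qinv
import Pool.Agent.Y672.EM.Frz
import Pool.Agent.Y975.EM.GRW
import Pool.Agent.Y475.EM.STEP
import Pool.Agent.Y737.EM.Ric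
import Pool.Agent.Y961.EM.Pers
import Pool.Agent.Y592.EM.Loc
import Pool.Agent.Y812.EM.Frame
import Pool.Agent.Y812.EM.Vec1
import Pool.Agent.Y419.EM.Vec2
import Pool.Agent.Y495.EM.Chn
import Pool.Agent.Y344.EM.LV
import Pool.Agent.Y288.EM.Sums
import Pool.Agent.Y708.EM.KERM
import Pool.Agent.Y590.EM.Tab
import Pool.Agent.Y161.EM.WTM
import Pool.Agent.Y510.EM.Datm
import Pool.Agent.Y419.EM.Ph1
import Pool.Agent.Y26.EM.PH2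
import Pool.Agent.Y5.EM.PH3b

/-! Assembly: the Euler equations with a skew-adjoint Fourier multiplier. -/

set_option autoImplicit false

namespace Pool.Agent.Y6.M

theorem t_BLOWM : S_BLOWM :=
  t_BLOWM_of Pool.Agent.Y153.EM.t_GAL Pool.Agent.Y219.EM.DEC.t_DEC
    (Pool.Agent.Y502.EM.Boot.t_BOOT Pool.Agent.Y394.EM.AVG.t_AVG Pool.Agent.Y219.EM.DEC.t_DEC)
    (Pool.Agent.Y604.EM.LIM.t_LIM Pool.Agent.Y219.EM.DEC.t_DEC) Pool.Agent.Y961.EM.PERS.t_PERS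
    Pool.Agent.Y592.EM.t_LOC
    (Pool.Agent.Y737.EM.Ric.t_RIC (Pool.Agent.Y475.EM.STEP.t_STEP Pool.Agent.Y681.EM.QINV.t_QINV
      Pool.Agent.Y672.EM.FRZ.t_FRZ
      (Pool.Agent.Y975.EM.GRW.t_GRW Pool.Agent.Y949.EM.Ars.t_ARS)))
    Pool.Agent.Y261.EM.SEQB.t_SEQB Pool.Agent.Y154.EM.UNI.t_UNI

theorem t_CONCM : S_CONCM := by
  obtain ⟨h, hh⟩ := Pool.Agent.Y812.EM.Frame.t_FRAME
  have lv : S_LV := Pool.Agent.Y344.EM.LV.t_LV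
  have su : S_SUMS := Pool.Agent.Y288.EM.SUMS.t_SUMS lv
  obtain ⟨d1, d2⟩ := Pool.Agent.Y510.EM.Datm.t_DATM lv
  exact ⟨h, hh, Pool.Agent.Y708.EM.KERM.t_KERM lv su h hh,
    Pool.Agent.Y495.EM.CHN.t_CHN Pool.Agent.Y419.EM.Vec2.t_VEC2 h hh,
    Pool.Agent.Y590.EM.Tab.t_TAB lv su Pool.Agent.Y812.EM.Vec1.t_VEC1 h hh,
    Pool.Agent.Y161.EM.WTM.t_WTM lv h hh, d1, d2⟩

theorem t_MAINM : S_MAINM :=
  Pool.Agent.Y5.EM.PH3.t_PH3 Pool.Agent.Y344.EM.LV.t_LV Pool.Agent.Y419.EM.Ph1.t_PH1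
    (Pool.Agent.Y26.EM.PH2.t_PH2 Pool.Agent.Y419.EM.Ph1.t_PH1) t_BLOWM t_CONCM

end Pool.Agent.Y6.M
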